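import Mathlib
import Pool.Agent.Q237.US.Fin
import Pool.Agent.Y673.DK.OneParam2
import Pool.Agent.Y673.DK.TwoParam
import Pool.Agent.Y673.Cnt.UnifR

/-!
# Few curves without `SL₂`: the poles of `j` in an extension, counting
-/

set_option autoImplicit false

namespace Pool.Agent.Q103.FWS

open NumberField IsDedekindDomain Height
open Pool.Agent.Y733.LS Pool.Agent.W223.AK Pool.Agent.H691R3
open Pool.Agent.Q237.LS Pool.Agent.Q237.LT Pool.Agent.Q237.US
open Pool.Agent.Y725.LS (below ldeg ldeg_pos ext_apply mem_over ideal_inj)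
open Pool.Agent.Y673.SL (HasSL)
open Pool.Agent.Y673.Loc (adv)
open Pool.Agent.H951R3.V (ell)

section Ext

variable {K : Type} [Field K] [NumberField K] {L : Type} [Field L] [NumberField L] [Algebra K L]

theorem ram_pos' (w : Pr L) :
    0 < (w.under (𝓞 K)).asIdeal.ramificationIdx' w.asIdeal := by
  have h := Pool.Agent.Y725.LS.ram_pos K (FinitePlace.mk w)
  unfold Pool.Agent.Y725.LS.below at h
  rwa [FinitePlace.maximalIdeal_mk, FinitePlace.maximalIdeal_mk] at h

theorem log_Nv_under (w : Pr L) : Real.log (Nv w) ≤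
    ldeg K (FinitePlace.mk w) * Real.log (Nv (w.under (𝓞 K))) := by
  have : w.asIdeal.LiesOver (w.under (𝓞 K)).asIdeal := ⟨rfl⟩
  have : (w.under (𝓞 K)).asIdeal.IsMaximal := (w.under (𝓞 K)).isMaximal
  have : w.asIdeal.IsMaximal := w.isMaximal
  have h1 := Ideal.absNorm_eq_pow_inertiaDeg'_of_liesOver w.asIdeal (w.under (𝓞 K)).asIdeal
    (w.under (𝓞 K)).isPrime (w.under (𝓞 K)).ne_bot

  have h2 : Real.log (Nv w) = ((w.under (𝓞 K)).asIdeal.inertiaDeg' w.asIdeal : ℝ) *
      Real.log (Nv (w.under (𝓞 K))) := by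
    unfold Nv
    rw [h1]
    push_cast
    rw [Real.log_pow]
  rw [h2]
  refine mul_le_mul_of_nonneg_right ?_ (log_Nv_pos _).le
  have h3 : ldeg K (FinitePlace.mk w) = (w.under (𝓞 K)).asIdeal.ramificationIdx' w.asIdeal *
      (w.under (𝓞 K)).asIdeal.inertiaDeg' w.asIdeal := by
    unfold Pool.Agent.Y725.LS.ldeg Pool.Agent.Y725.LS.below
    rw [FinitePlace.maximalIdeal_mk, FinitePlace.maximalIdeal_mk]
  rw [h3]
  have h4 := ram_pos' (K := K) w
  exact_mod_cast Nat.le_mul_of_pos_left _ h4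

/-- the fundamental identity -/
theorem sum_ldeg_wa (j : K) {v : Pr K} (hv : v ∈ wa j) [DecidableEq (Pr K)] :
    ∑ w ∈ (wa (algebraMap K L j)).filter (fun w => w.under (𝓞 K) = v),
      ldeg K (FinitePlace.mk w) = Module.finrank K L := by
  classical
  have : v.asIdeal.IsMaximal := v.isMaximal
  have h := Ideal.sum_ramification_inertia (R := 𝓞 K) (𝓞 L) K L (p := v.asIdeal) v.ne_bot
  rw [← h]
  have hinj : Set.InjOn (fun w : Pr L => w.asIdeal)
      ((wa (algebraMap K L j)).filter (fun w => w.under (𝓞 K) = v) : Finset (Pr L)) :=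
    fun a _ b _ hab => HeightOneSpectrum.ext hab
  have h1 : ∑ w ∈ (wa (algebraMap K L j)).filter (fun w => w.under (𝓞 K) = v),
      ldeg K (FinitePlace.mk w) =
      ∑ P ∈ ((wa (algebraMap K L j)).filter (fun w => w.under (𝓞 K) = v)).image
        (fun w : Pr L => w.asIdeal), v.asIdeal.ramificationIdx' P * v.asIdeal.inertiaDeg' P := by
    rw [Finset.sum_image hinj]
    refine Finset.sum_congr rfl fun w hw => ?_
    unfold Pool.Agent.Y725.LS.ldeg Pool.Agent.Y725.LS.below
    rw [FinitePlace.maximalIdeal_mk, FinitePlace.maximalIdeal_mk, (Finset.mem_filter.1 hw).2]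
  rw [h1]
  refine Finset.sum_congr ?_ fun _ _ => rfl
  ext P
  rw [Finset.mem_image, IsDedekindDomain.mem_primesOverFinset_iff v.ne_bot]
  constructor
  · rintro ⟨w, hw, rfl⟩
    obtain ⟨_, h2⟩ := Finset.mem_filter.1 hw
    refine ⟨w.isPrime, ⟨?_⟩⟩
    rw [← h2]
    rfl
  · rintro ⟨hP, hPv⟩
    have hbot : P ≠ ⊥ := by
      have : P.LiesOver v.asIdeal := hPv
      exact Ideal.ne_bot_of_liesOver_of_ne_bot v.ne_bot P
    refine ⟨⟨P, hP, hbot⟩, ?_, rfl⟩
    have hu : (⟨P, hP, hbot⟩ : Pr L).under (𝓞 K) = v := by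
      apply HeightOneSpectrum.ext
      exact hPv.over.symm
    rw [Finset.mem_filter]
    refine ⟨?_, hu⟩
    rw [mem_wa_ext, hu]
    exact hv

/-- the truncated counting function of the poles in an extension, upper bound -/
theorem fa_ext_le (j : K) : fa (algebraMap K L j) ≤ Module.finrank K L * fa j := by
  classical
  unfold fa
  rw [← Finset.sum_fiberwise_of_maps_to (g := fun w : Pr L => w.under (𝓞 K)) (t := wa j)
    (fun w hw => (mem_wa_ext w j).1 hw), Finset.mul_sum]
  refine Finset.sum_le_sum fun v hv => ?_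
  rw [← sum_ldeg_wa (L := L) j hv]
  push_cast
  rw [Finset.sum_mul]
  refine Finset.sum_le_sum fun w hw => ?_
  have h := log_Nv_under (K := K) w
  rwa [(Finset.mem_filter.1 hw).2] at h

end Ext

end Pool.Agent.Q103.FWS
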