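import Mathlib
import Pool.Agent.Q103.FWS.Base

/-!
# Few curves without `SL₂`: one-parameter families over all fields of bounded degree
-/

set_option autoImplicit false

namespace Pool.Agent.Q103.FWS

open NumberField IsDedekindDomain Height Polynomial
open Pool.Agent.Y733.LS (jj)
open Pool.Agent.H691R3 (fv Nv log_Nv_pos)
open Pool.Agent.W223.AK (Nv_one_lt)
open Pool.Agent.Q237.LT (fa wa mem_wa)
open Pool.Agent.Q237.US (fa_bound' c10 c10_pos)
open Pool.Agent.Y673.SL (HasSL)
open Pool.Agent.Y673.Loc Pool.Agent.Y673.Cnt Pool.Agent.Y673.DK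
open Pool.Agent.H951R3.V (ell logHeight₁_inv')

/-- `j` is the invariant of a curve over `L` such that, for some prime `p ≥ N`, the image of the
Galois group on the `p`-torsion does not contain `SL₂` -/
def EJS (L : Type) [Field L] (N : ℕ) (j : L) : Prop :=
  ∃ A B : L, 4 * A ^ 3 + 27 * B ^ 2 ≠ 0 ∧ jj A B = j ∧
    ∃ p : ℕ, p.Prime ∧ N ≤ p ∧ ¬ HasSL A B p

theorem EJS_fa {L : Type} [Field L] [NumberField L] {N : ℕ} {j : L} (h : EJS L N j) (hN : 5 ≤ N) :
    fa j ≤ 3 / N * logHeight₁ j + Module.finrank ℚ L * c10 := by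
  obtain ⟨A, B, hD, rfl, p, hp, hNp, hno⟩ := h
  have h1 := fa_bound' hD hp (by omega) hno
  rw [← Pool.Agent.Q237.LS.ht_log] at h1
  refine h1.trans ?_
  have hN0 : (0 : ℝ) < N := by
    have : 0 < N := by omega
    exact_mod_cast this
  have h2 : 3 / (p : ℝ) ≤ 3 / N := div_le_div_of_nonneg_left (by norm_num) hN0 (by exact_mod_cast hNp)
  have h3 := mul_le_mul_of_nonneg_right h2 (zero_le_logHeight₁ (jj A B))
  linarith

theorem neg_mem_wa {L : Type} [Field L] [NumberField L] {j : L} (v : HeightOneSpectrum (𝓞 L))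
    (h : (adv L v).v j < 0) : v ∈ wa j := by
  have h0 : j ≠ 0 := by
    rintro rfl
    have : (adv L v).v (0 : L) = 0 := by
      show -WithZero.log (v.valuation L 0) = 0
      rw [map_zero, WithZero.log_zero, neg_zero]
    omega
  rw [mem_wa, fv_adv v h0]
  exact one_lt_zpow₀ (Nv_one_lt v) (by omega)

/-- heights of values of polynomials, uniformly in the field -/
theorem poly_ht {K : Type} [Field K] [NumberField K] : ∀ (D : ℕ) (P : K[X]), P.natDegree ≤ D →
    ∃ B : ℝ, 0 ≤ B ∧ ∀ (L : Type) [Field L] [NumberField L] [Algebra K L] (t : L),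
      logHeight₁ ((P.map (algebraMap K L)).eval t) ≤
        D * logHeight₁ t + Module.finrank ℚ L * B := by
  have hconst : ∀ a : K, ∀ (L : Type) [Field L] [NumberField L] [Algebra K L],
      logHeight₁ (algebraMap K L a) ≤ Module.finrank ℚ L * logHeight₁ a := by
    intro a L _ _ _
    rw [ht_ext K L a]
    refine mul_le_mul_of_nonneg_right ?_ (zero_le_logHeight₁ a)
    rw [← Module.finrank_mul_finrank ℚ K L]
    push_cast
    have h4 : (1 : ℝ) ≤ Module.finrank ℚ K := by
      exact_mod_cast Module.finrank_pos (R := ℚ) (M := K)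
    have h5 : (0 : ℝ) ≤ Module.finrank K L := Nat.cast_nonneg _
    nlinarith
  intro D
  induction D with
  | zero =>
    intro P hP
    refine ⟨logHeight₁ (P.coeff 0), zero_le_logHeight₁ _, ?_⟩
    intro L _ _ _ t
    have hc : P = C (P.coeff 0) := eq_C_of_natDegree_le_zero hP
    have e : (P.map (algebraMap K L)).eval t = algebraMap K L (P.coeff 0) := by
      rw [hc]; simp
    rw [e]
    have := hconst (P.coeff 0) L
    push_cast
    linarith
  | succ D ih =>
    intro P hP
    obtain ⟨B, hB, h⟩ := ih P.divX (by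
      rw [natDegree_divX_eq_natDegree_tsub_one]
      omega)
    refine ⟨B + logHeight₁ (P.coeff 0) + Real.log 2, by
      have := zero_le_logHeight₁ (P.coeff 0)
      have := Real.log_nonneg (show (1 : ℝ) ≤ 2 by norm_num)
      positivity, ?_⟩
    intro L _ _ _ t
    have e : (P.map (algebraMap K L)).eval t =
        ((P.divX).map (algebraMap K L)).eval t * t + algebraMap K L (P.coeff 0) := by
      conv_lhs => rw [← divX_mul_X_add P]
      simp
    rw [e]
    have h1 := logHeight₁_add_le (((P.divX).map (algebraMap K L)).eval t * t)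
      (algebraMap K L (P.coeff 0))
    rw [totalWeight_eq_finrank] at h1
    have h2 := logHeight₁_mul_le (((P.divX).map (algebraMap K L)).eval t) t
    have h3 := h L t
    have h4 := hconst (P.coeff 0) L
    push_cast
    linarith

theorem rat_ht {K : Type} [Field K] [NumberField K] (F G : K[X]) :
    ∃ B : ℝ, 0 ≤ B ∧ ∀ (L : Type) [Field L] [NumberField L] [Algebra K L] (t : L),
      logHeight₁ ((F.map (algebraMap K L)).eval t / (G.map (algebraMap K L)).eval t) ≤
        ((F.natDegree + G.natDegree : ℕ) : ℝ) * logHeight₁ t + Module.finrank ℚ L * B := by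
  obtain ⟨B₁, hB₁, h₁⟩ := poly_ht F.natDegree F le_rfl
  obtain ⟨B₂, hB₂, h₂⟩ := poly_ht G.natDegree G le_rfl
  refine ⟨B₁ + B₂, by positivity, ?_⟩
  intro L _ _ _ t
  rw [div_eq_mul_inv]
  refine (logHeight₁_mul_le _ _).trans ?_
  rw [logHeight₁_inv']
  have := h₁ L t
  have := h₂ L t
  push_cast
  linarith

section shared
variable (K M₀ : Type) [Field K] [NumberField K] [Field M₀] [NumberField M₀] [Algebra K M₀]

theorem sharedS (n : ℕ) (c : 𝓞 M₀) (hc : c ≠ 0) (B₀ : ℝ) (hB : 0 ≤ B₀) (D : ℕ) (B₁ : ℝ)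
    (hB₁ : 0 ≤ B₁) {ε : ℝ} (hε : 0 < ε) : ∃ (N : ℕ) (C : ℝ), 5 ≤ N ∧ 0 < C ∧
    ∀ (L : Type) [Field L] [NumberField L], Module.finrank ℚ L ≤ n →
      ∀ (M : Type) [Field M] [NumberField M] [Algebra L M] [Algebra M₀ M],
        Module.finrank L M ≤ Module.finrank K M₀ → ∀ X : ℝ, 1 ≤ X →
        ∀ (E : Finset L) (u : L → M) (j : L → L),
        Set.InjOn u E → (∀ t ∈ E, mulHeight₁ t ≤ X ∧ u t ≠ 0 ∧
          logHeight₁ (u t) ≤ 2 * logHeight₁ (algebraMap L M t) + Module.finrank ℚ M * B₀ ∧
          logHeight₁ (j t) ≤ D * logHeight₁ t + Module.finrank ℚ L * B₁ ∧ EJS L N (j t) ∧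
          ∀ w : HeightOneSpectrum (𝓞 M),
            (adv M w).v (algebraMap M₀ M (c : M₀)) = 0 → (adv M w).v (u t) ≠ 0 →
              (adv M w).v (algebraMap L M (j t)) < 0) →
        (E.card : ℝ) ≤ C * X ^ ε := by
  classical
  set d : ℕ := Module.finrank K M₀ with hd
  have hd0 : 0 < d := by
    have : FiniteDimensional K M₀ := Module.Finite.of_restrictScalars_finite ℚ K M₀
    exact Module.finrank_pos
  have hd0' : (0 : ℝ) < d := by exact_mod_cast hd0
  set δ : ℝ := ε / (4 * d) with hδ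
  have hδ0 : 0 < δ := by positivity
  obtain ⟨C, hC, h1⟩ := ucnt (n * d) hδ0
  set N : ℕ := max 5 ⌈6 * (d * D) / ε⌉₊ with hN
  have hN5 : 5 ≤ N := le_max_left _ _
  have hNpos' : (0 : ℝ) < N := by
    have : 0 < N := by omega
    exact_mod_cast this
  have hN2 : d * (3 / N * D) ≤ ε / 2 := by
    have h2' : ⌈6 * ((d : ℝ) * D) / ε⌉₊ ≤ N := le_max_right _ _
    have h2 : 6 * ((d : ℝ) * D) / ε ≤ N := (Nat.le_ceil _).trans (by exact_mod_cast h2')
    rw [div_le_iff₀ hε] at h2
    have e : (d : ℝ) * (3 / N * D) = (3 * (d * D)) / N := by ring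
    rw [e, div_le_iff₀ hNpos']
    linarith
  set W : ℝ := 2 * ((n * d : ℕ) : ℝ) * logHeight₁ (c : M₀) with hW
  have hhc : 0 ≤ logHeight₁ (c : M₀) := zero_le_logHeight₁ _
  set B₂ : ℝ := ((n * d : ℕ) : ℝ) * B₀ with hB₂
  have hB₂0 : 0 ≤ B₂ := by positivity
  set B₃ : ℝ := d * (3 / N * (n * B₁) + n * c10) with hB₃
  refine ⟨N, C * Real.exp (δ * B₂ + W + B₃), hN5, by positivity, ?_⟩
  intro L _ _ hLn M _ _ _ _ hLM X hX E u j hinj hE
  have hlX : 0 ≤ Real.log X := Real.log_nonneg hX
  have hfr : Module.finrank ℚ M ≤ n * d := by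
    rw [← Module.finrank_mul_finrank ℚ L M]
    exact Nat.mul_le_mul hLn hLM
  have hfr' : (Module.finrank ℚ M : ℝ) ≤ ((n * d : ℕ) : ℝ) := by exact_mod_cast hfr
  have hcM : algebraMap M₀ M (c : M₀) ≠ 0 :=
    (map_ne_zero_iff _ (algebraMap M₀ M).injective).2 (by exact_mod_cast hc)
  set F : Finset (HeightOneSpectrum (𝓞 M)) := (adv_finite hcM).toFinset with hF
  have hFW : ∑ v ∈ F, ell v ≤ W := by
    refine (supp_weight hcM F (fun v hv => by simpa [hF] using hv)).trans ?_
    rw [ht_ext, hW]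
    have h3 : (Module.finrank M₀ M : ℝ) ≤ ((n * d : ℕ) : ℝ) := by
      refine le_trans ?_ hfr'
      rw [← Module.finrank_mul_finrank ℚ M₀ M]
      push_cast
      have h4 : (1 : ℝ) ≤ Module.finrank ℚ M₀ := by
        exact_mod_cast Module.finrank_pos (R := ℚ) (M := M₀)
      have h5 : (0 : ℝ) ≤ Module.finrank M₀ M := Nat.cast_nonneg _
      nlinarith
    have := mul_le_mul_of_nonneg_right h3 hhc
    linarith
  have h8 : (Module.finrank L M : ℝ) ≤ d := by exact_mod_cast hLM
  have hLn' : (Module.finrank ℚ L : ℝ) ≤ n := by exact_mod_cast hLn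
  have hc10 := c10_pos
  have hln : ∀ t ∈ E, logHeight₁ t ≤ Real.log X := by
    intro t ht
    rw [logHeight₁_eq_log_mulHeight₁]
    exact Real.log_le_log (mulHeight₁_pos t) (hE t ht).1
  have h2 := h1 M hfr (2 * d * Real.log X + B₂)
    (W + (d * (3 / N * D) * Real.log X + B₃)) (by positivity) (E.image u) (by
    intro y hy
    obtain ⟨t, ht, rfl⟩ := Finset.mem_image.1 hy
    obtain ⟨h3, h4, h5, h5', h6, h6'⟩ := hE t ht
    refine ⟨h4, ?_, F ∪ wa (algebraMap L M (j t)), ?_, ?_⟩
    · refine h5.trans ?_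
      rw [ht_ext]
      have h7 := hln t ht
      have h9 : (Module.finrank L M : ℝ) * logHeight₁ t ≤ d * Real.log X :=
        mul_le_mul h8 h7 (zero_le_logHeight₁ t) hd0'.le
      have h10 := mul_le_mul_of_nonneg_right hfr' hB
      linarith
    · have h7 : ∑ v ∈ F ∪ wa (algebraMap L M (j t)), ell v ≤
          ∑ v ∈ F, ell v + ∑ v ∈ wa (algebraMap L M (j t)), ell v := by
        rw [← Finset.sum_union_inter]
        have : 0 ≤ ∑ v ∈ F ∩ wa (algebraMap L M (j t)), ell v :=
          Finset.sum_nonneg fun v _ => (log_Nv_pos v).le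
        linarith
      have h9 : ∑ v ∈ wa (algebraMap L M (j t)), ell v ≤
          d * (3 / N * D) * Real.log X + B₃ := by
        have e : ∑ v ∈ wa (algebraMap L M (j t)), ell v = fa (algebraMap L M (j t)) := rfl
        rw [e]
        refine (fa_ext_le (j t)).trans ?_
        have g1 := EJS_fa h6 hN5
        have g2 := hln t ht
        have g3 : logHeight₁ (j t) ≤ D * Real.log X + n * B₁ := by
          have g4 := mul_le_mul_of_nonneg_left g2 (Nat.cast_nonneg D : (0 : ℝ) ≤ D)
          have g5 := mul_le_mul_of_nonneg_right hLn' hB₁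
          linarith
        have g4 : fa (j t) ≤ 3 / N * (D * Real.log X + n * B₁) + n * c10 := by
          have g5 := mul_le_mul_of_nonneg_left g3 (by positivity : (0 : ℝ) ≤ 3 / N)
          have g6 := mul_le_mul_of_nonneg_right hLn' hc10.le
          linarith
        have g5 : (Module.finrank L M : ℝ) * fa (j t) ≤
            d * (3 / N * (D * Real.log X + n * B₁) + n * c10) :=
          mul_le_mul h8 g4 (Pool.Agent.Q237.LT.fa_nonneg _) hd0'.le
        refine g5.trans (le_of_eq ?_)
        rw [hB₃]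
        ring
      linarith
    · intro v hv
      rw [Finset.mem_union, not_or] at hv
      by_contra hne
      refine hv.2 (neg_mem_wa v (h6' v ?_ hne))
      by_contra hne'
      exact hv.1 (by rw [hF, Set.Finite.mem_toFinset]; exact hne'))
  rw [Finset.card_image_of_injOn hinj] at h2
  refine h2.trans ?_
  have hX0 : (0 : ℝ) < X := by linarith
  rw [mul_assoc C, Real.rpow_def_of_pos hX0, ← Real.exp_add]
  refine mul_le_mul_of_nonneg_left (Real.exp_le_exp.2 ?_) hC.le
  have h3 := mul_le_mul_of_nonneg_right hN2 hlX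
  have h4 : δ * (2 * d * Real.log X) = ε / 2 * Real.log X := by
    rw [hδ]
    field_simp
    ring
  nlinarith

end shared

end Pool.Agent.Q103.FWS
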