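import Mathlib
import Pool.Agent.Q103.FWS.One

/-!
# One-parameter families with two poles: few parameters without `SL₂`, uniformly in the field

The geometric part follows `Pool.Agent.Y673.DK.OneParam2` (helper673).
-/

set_option autoImplicit false

namespace Pool.Agent.Q103.FWS

open NumberField IsDedekindDomain Height Polynomial
open Pool.Agent.Y673.Loc Pool.Agent.Y673.Cnt Pool.Agent.Y673.DK
open Pool.Agent.H951R3.V (ell logHeight₁_inv')

variable (K : Type) [Field K] [NumberField K]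

/-- from a place of `M` down to a place of `L` -/
theorem rat_neg {L M : Type} [Field L] [NumberField L] [Field M] [NumberField M] [Algebra L M]
    {m : ℕ} {a : ℤ} {j : L} (w : HeightOneSpectrum (𝓞 M)) (hm : 0 < m) (ha : 0 < a)
    (h : (adv M w).v (algebraMap L M j) = -(m * a)) : (adv M w).v (algebraMap L M j) < 0 := by
  rw [h]
  have : 0 < (m : ℤ) * a := by
    have : (0 : ℤ) < m := by exact_mod_cast hm
    positivity
  omega

/-- one finite pole and a pole at infinity -/
theorem rational_inf (F G : K[X]) (hcop : IsCoprime F G) (hG : 0 < G.natDegree)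
    (hFG : G.natDegree < F.natDegree) (n : ℕ) {ε : ℝ} (hε : 0 < ε) :
    ∃ (N : ℕ) (C : ℝ), 0 < C ∧
    ∀ (L : Type) [Field L] [NumberField L] [Algebra K L], Module.finrank ℚ L ≤ n →
      ∀ X : ℝ, 1 ≤ X → ∀ E : Finset L, (∀ t ∈ E, mulHeight₁ t ≤ X ∧
        (G.map (algebraMap K L)).eval t ≠ 0 ∧
        EJS L N ((F.map (algebraMap K L)).eval t / (G.map (algebraMap K L)).eval t)) →
      (E.card : ℝ) ≤ C * X ^ ε := by
  classical
  have hG0 : G ≠ 0 := by rintro rfl; simp at hG
  obtain ⟨x, hx⟩ := IsAlgClosed.exists_aeval_eq_zero (AlgebraicClosure K) G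
    (fun h => by rw [← natDegree_eq_zero_iff_degree_le_zero.2 h.le] at hG; exact lt_irrefl _ hG)
  obtain ⟨M₀, _, _, _, φ, π, -, hπx, -⟩ := exists_field2 K x x
  have hπ : (G.map (algebraMap K M₀)).eval π = 0 := root_of φ G π (by rw [hπx]; exact hx)
  have hinjK := (algebraMap K M₀).injective
  have hGM : G.map (algebraMap K M₀) ≠ 0 := (Polynomial.map_ne_zero_iff hinjK).2 hG0
  obtain ⟨m, s, hm, hs⟩ := pole_data (F.map (algebraMap K M₀)) (G.map (algebraMap K M₀))
    (hcop.map (Polynomial.mapRingHom (algebraMap K M₀))) hGM π hπ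
  obtain ⟨m₂, s₂, hm₂, hs₂⟩ := inf_data (F.map (algebraMap K M₀)) (G.map (algebraMap K M₀)) hGM
    (by rw [natDegree_map, natDegree_map]; exact hFG)
  obtain ⟨c, hc, hcs⟩ := exists_c (s ∪ (s₂ ∪ {π}))
  obtain ⟨B₁, hB₁, hrat⟩ := rat_ht F G
  obtain ⟨N, C, hN, hC, h⟩ := sharedS K M₀ n c hc (Real.log 2 + logHeight₁ π)
    (add_nonneg (Real.log_nonneg (by norm_num)) (zero_le_logHeight₁ π))
    (F.natDegree + G.natDegree) B₁ hB₁ hε
  refine ⟨N, C, hC, ?_⟩
  intro L _ _ _ hL X hX E hE
  obtain ⟨M, _, _, _, _, hcomp, hfin⟩ := exists_comp K L M₀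
  refine h L hL M hfin X hX E (fun t => algebraMap L M t - algebraMap M₀ M π)
    (fun t => (F.map (algebraMap K L)).eval t / (G.map (algebraMap K L)).eval t) ?_ ?_
  · intro t _ t' _ htt
    exact (algebraMap L M).injective (sub_left_injective htt)
  intro t ht
  obtain ⟨h2, h3, h4⟩ := hE t ht
  have hne : algebraMap L M t - algebraMap M₀ M π ≠ 0 := by
    intro h0
    have h5 : algebraMap L M t = algebraMap M₀ M π := sub_eq_zero.1 h0
    have h6 := eval_comp hcomp G t
    rw [h5, eval_map, eval₂_at_apply, hπ, map_zero] at h6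
    exact h3 ((map_eq_zero_iff _ (algebraMap L M).injective).1 h6.symm)
  refine ⟨h2, hne, ?_, hrat L t, h4, fun w hw hv => ?_⟩
  · refine (ht_sub t π).trans ?_
    have := zero_le_logHeight₁ (algebraMap L M t)
    linarith
  have hgd := hcs M (adv M w) (fun r => adv_int M₀ M w r) hw
  have hgs : Gd s (adv M w) := hgd.mono Finset.subset_union_left
  have hgs₂ : Gd s₂ (adv M w) :=
    hgd.mono (Finset.subset_union_left.trans Finset.subset_union_right)
  have hπw : (adv M w).G 0 (algebraMap M₀ M π) := hgd.G (by simp)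
  have e0 : algebraMap L M t - algebraMap M₀ M π + algebraMap M₀ M π = algebraMap L M t :=
    sub_add_cancel _ _
  rcases lt_trichotomy ((adv M w).v (algebraMap L M t - algebraMap M₀ M π)) 0 with h6 | h6 | h6
  · -- near infinity
    have h7 : (adv M w).E ((adv M w).v (algebraMap L M t - algebraMap M₀ M π))
        (algebraMap L M t) := by
      have := (ZV.E_of_ne (w := adv M w) hne).addG hπw h6
      rwa [e0] at this
    have h8 := hs₂ M (adv M w) hgs₂ _ h7.1 (by rw [h7.2]; exact h6)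
    rw [eval_comp hcomp, eval_comp hcomp, ← map_div₀, h7.2] at h8
    rw [h8]
    have : (0 : ℤ) < m₂ := by exact_mod_cast hm₂
    exact mul_neg_of_pos_of_neg this h6
  · exact absurd h6 hv
  · have h7 := hs M (adv M w) hgs _ hne (Or.inr (by omega))
    rw [eval_comp hcomp, eval_comp hcomp, ← map_div₀] at h7
    exact rat_neg w hm h6 h7

/-- two finite poles -/
theorem rational_two (F G : K[X]) (hcop : IsCoprime F G) (hG0 : G ≠ 0)
    (x y : AlgebraicClosure K) (hxy : x ≠ y) (hx : aeval x G = 0) (hy : aeval y G = 0)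
    (n : ℕ) {ε : ℝ} (hε : 0 < ε) :
    ∃ (N : ℕ) (C : ℝ), 0 < C ∧
    ∀ (L : Type) [Field L] [NumberField L] [Algebra K L], Module.finrank ℚ L ≤ n →
      ∀ X : ℝ, 1 ≤ X → ∀ E : Finset L, (∀ t ∈ E, mulHeight₁ t ≤ X ∧
        (G.map (algebraMap K L)).eval t ≠ 0 ∧
        EJS L N ((F.map (algebraMap K L)).eval t / (G.map (algebraMap K L)).eval t)) →
      (E.card : ℝ) ≤ C * X ^ ε := by
  classical
  obtain ⟨M₀, _, _, _, φ, π, ρ, hπx, hρy⟩ := exists_field2 K x y
  have hπ : (G.map (algebraMap K M₀)).eval π = 0 := root_of φ G π (by rw [hπx]; exact hx)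
  have hρ : (G.map (algebraMap K M₀)).eval ρ = 0 := root_of φ G ρ (by rw [hρy]; exact hy)
  have hπρ : π ≠ ρ := by
    rintro rfl
    exact hxy (hπx.symm.trans hρy)
  have hinjK := (algebraMap K M₀).injective
  have hGM : G.map (algebraMap K M₀) ≠ 0 := (Polynomial.map_ne_zero_iff hinjK).2 hG0
  have hcop' : IsCoprime (F.map (algebraMap K M₀)) (G.map (algebraMap K M₀)) :=
    hcop.map (Polynomial.mapRingHom (algebraMap K M₀))
  obtain ⟨m, s, hm, hs⟩ := pole_data _ _ hcop' hGM π hπ
  obtain ⟨m₂, s₂, hm₂, hs₂⟩ := pole_data _ _ hcop' hGM ρ hρ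
  obtain ⟨c, hc, hcs⟩ := exists_c (s ∪ (s₂ ∪ {π, ρ, π - ρ}))
  set B₁ : ℝ := Real.log 2 + logHeight₁ π with hB₁
  set B₂ : ℝ := Real.log 2 + logHeight₁ ρ with hB₂
  have hl2 : 0 ≤ Real.log 2 := Real.log_nonneg (by norm_num)
  obtain ⟨B₃, hB₃, hrat⟩ := rat_ht F G
  obtain ⟨N, C, hN, hC, h⟩ := sharedS K M₀ n c hc (B₁ + B₂)
    (add_nonneg (add_nonneg hl2 (zero_le_logHeight₁ π)) (add_nonneg hl2 (zero_le_logHeight₁ ρ)))
    (F.natDegree + G.natDegree) B₃ hB₃ hε
  refine ⟨N, C, hC, ?_⟩
  intro L _ _ _ hL X hX E hE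
  obtain ⟨M, _, _, _, _, hcomp, hfin⟩ := exists_comp K L M₀
  have hinjM := (algebraMap M₀ M).injective
  have hnz : ∀ (t : L) (κ : M₀), (G.map (algebraMap K L)).eval t ≠ 0 →
      (G.map (algebraMap K M₀)).eval κ = 0 → algebraMap L M t - algebraMap M₀ M κ ≠ 0 := by
    intro t κ h3 hκ h0
    have h5 : algebraMap L M t = algebraMap M₀ M κ := sub_eq_zero.1 h0
    have h6 := eval_comp hcomp G t
    rw [h5, eval_map, eval₂_at_apply, hκ, map_zero] at h6
    exact h3 ((map_eq_zero_iff _ (algebraMap L M).injective).1 h6.symm)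
  refine h L hL M hfin X hX E (fun t => (algebraMap L M t - algebraMap M₀ M π) /
    (algebraMap L M t - algebraMap M₀ M ρ))
    (fun t => (F.map (algebraMap K L)).eval t / (G.map (algebraMap K L)).eval t) ?_ ?_
  · intro t ht t' ht' htt
    have h1 := hnz t ρ (hE t (Finset.mem_coe.1 ht)).2.1 hρ
    have h2 := hnz t' ρ (hE t' (Finset.mem_coe.1 ht')).2.1 hρ
    simp only at htt
    rw [div_eq_div_iff h1 h2] at htt
    have h3 : (algebraMap L M t - algebraMap L M t') * (algebraMap M₀ M π - algebraMap M₀ M ρ)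
        = 0 := by linear_combination htt
    rcases mul_eq_zero.1 h3 with h4 | h4
    · exact (algebraMap L M).injective (sub_eq_zero.1 h4)
    · exact absurd (hinjM (sub_eq_zero.1 h4)) hπρ
  intro t ht
  obtain ⟨h2, h3, h4⟩ := hE t ht
  have hne := hnz t π h3 hπ
  have hne₂ := hnz t ρ h3 hρ
  refine ⟨h2, div_ne_zero hne hne₂, ?_, hrat L t, h4, fun w hw hv => ?_⟩
  · have i1 := ht_sub (M := M) t π
    have i2 := ht_sub (M := M) t ρ
    rw [← hB₁] at i1
    rw [← hB₂] at i2
    rw [div_eq_mul_inv]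
    refine (logHeight₁_mul_le _ _).trans ?_
    rw [logHeight₁_inv']
    have e : (Module.finrank ℚ M : ℝ) * (B₁ + B₂) =
      Module.finrank ℚ M * B₁ + Module.finrank ℚ M * B₂ := by ring
    rw [e]
    linarith
  have hgd := hcs M (adv M w) (fun r => adv_int M₀ M w r) hw
  have hgs : Gd s (adv M w) := hgd.mono Finset.subset_union_left
  have hgs₂ : Gd s₂ (adv M w) :=
    hgd.mono (Finset.subset_union_left.trans Finset.subset_union_right)
  have hπw : (adv M w).G 0 (algebraMap M₀ M π) := hgd.G (by simp)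
  have hρw : (adv M w).G 0 (algebraMap M₀ M ρ) := hgd.G (by simp)
  have hdw : (adv M w).E 0 (algebraMap M₀ M π - algebraMap M₀ M ρ) := by
    have := hgd.E (x := π - ρ) (by simp) (sub_ne_zero.2 hπρ)
    rwa [map_sub] at this
  set a := algebraMap L M t - algebraMap M₀ M π with ha
  set b := algebraMap L M t - algebraMap M₀ M ρ with hb
  have hab : b = a + (algebraMap M₀ M π - algebraMap M₀ M ρ) := by rw [ha, hb]; ring
  have hEa := ZV.E_of_ne (w := adv M w) hne
  have hEb := ZV.E_of_ne (w := adv M w) hne₂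
  -- the argument near a pole
  have near : ∀ (κ : M₀) (m' : ℕ) (s' : Finset M₀), 0 < m' → Gd s' (adv M w) →
      (∀ (M : Type) [Field M] [Algebra M₀ M] (w : ZV M), Gd s' w → ∀ t : M,
      t - algebraMap M₀ M κ ≠ 0 → w.G 1 (t - algebraMap M₀ M κ) →
      w.v (((F.map (algebraMap K M₀)).map (algebraMap M₀ M)).eval t /
        ((G.map (algebraMap K M₀)).map (algebraMap M₀ M)).eval t) =
        -(m' * w.v (t - algebraMap M₀ M κ))) →
      algebraMap L M t - algebraMap M₀ M κ ≠ 0 →
      0 < (adv M w).v (algebraMap L M t - algebraMap M₀ M κ) →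
      (adv M w).v (algebraMap L M ((F.map (algebraMap K L)).eval t /
        (G.map (algebraMap K L)).eval t)) < 0 := by
    intro κ m' s' hm' hgs' hs' hne' hpos
    have h7 := hs' M (adv M w) hgs' _ hne' (Or.inr (by omega))
    rw [eval_comp hcomp, eval_comp hcomp, ← map_div₀] at h7
    exact rat_neg w hm' hpos h7
  rw [(hEa.div hEb).2] at hv
  rcases lt_trichotomy ((adv M w).v a) 0 with h6 | h6 | h6
  · exfalso
    have h7 := hEa.addG hdw.G h6
    rw [← hab] at h7
    rw [h7.2, sub_self] at hv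
    exact hv rfl
  · have h8 : (adv M w).G 0 b := by
      rw [hab]
      exact (hEa.mono h6.ge).add hdw.G
    rcases (h8.resolve_left hne₂).lt_or_eq with h9 | h9
    · exact near ρ m₂ s₂ hm₂ hgs₂ hs₂ hne₂ h9
    · exfalso
      rw [← h9, h6] at hv
      exact hv (by ring)
  · exact near π m s hm hgs hs hne h6

end Pool.Agent.Q103.FWS
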